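import Pool.Agent.Results.MP_4d5ce1_nt.AllFiniteSubsetsAtOnce
import Pool.Agent.V11326.WOC
import Pool.Agent.V11326.WCt

/-!
# Vojta's inequality for ALL points of the line, of whatever height, with truncated counting functions in windows, for all
finite subsets at once

Let `K` be a number field of degree `d` and `ε > 0`. Let `v_n ≥ 1` be a sequence, for example `v_n = 2 ^ n`. For all real
`β` outside a set `F` of Hausdorff dimension less than one (and of measure zero) the following holds for ALL `q ≥ 3`, all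
distinct points `α_1, …, α_q` of the projective line over `K` and all finite sets `T` of primes of `K`. Let `N(x)` be the
truncated counting function `∑_{v ∉ T} ∑_l λ⁽¹⁾_v(α_l, x)`. There is a constant `C` such that ALL points `x` of the line over
`K`, of whatever height, with `|exp (2 d N(x) / q) - β v_n| ≤ v_n ^ θ` for some `n` satisfy
`(1 - ε) q h(x) ≤ N(x) + C`. (There are `X ^ (1 + o(1))` points with `exp (2 d N(x) / q) ≤ X`.) The conjecture has the
coefficient `q - 2 - ε`; the coefficient `q` is the largest possible one, as `N(x) ≤ q h(x) + O(1)` for all `x`.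

The proof combines the starting result `AllFiniteSubsetsAtOnce` with a covering argument. The definitions of `height` and
`counting` are those of that file.
-/

set_option autoImplicit false

namespace Pool.Agent.Results.MP_4d5ce1_nt.ConductorWindows

open NumberField IsDedekindDomain MeasureTheory
open Pool.Agent.Results.MP_4d5ce1_nt.AllFiniteSubsetsAtOnce

variable {K : Type} [Field K] [NumberField K]

/-- The exponent of convergence of the sequence `v` is at most `τ`: the sum of the `v_n ^ (-p)` converges for all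
`p > τ`. -/
def ExpLe (v : ℕ → ℝ) (τ : ℝ) : Prop := ∀ p : ℝ, τ < p → Summable fun n => (v n) ^ (-p)

theorem height_smul (c : K) (hc : c ≠ 0) (x : Fin 2 → K) : height (c • x) = height x := by
  unfold height
  rw [Height.logHeight_smul_eq_logHeight x hc]

theorem counting_smul (T : Set (HeightOneSpectrum (𝓞 K))) {q : ℕ} (α : Fin q → Fin 2 → K) (c : K) (hc : c ≠ 0)
    (x : Fin 2 → K) : counting T α (c • x) = counting T α x := by
  unfold counting
  refine finsum_congr fun v => finsum_congr fun _ => Finset.sum_congr rfl fun l _ => ?_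
  congr 3
  have h0 : 0 < FinitePlace.mk v c := (FinitePlace.pos_iff).2 hc
  have e1 : FinitePlace.mk v ((c • x) 0) = FinitePlace.mk v c * FinitePlace.mk v (x 0) := by
    rw [Pi.smul_apply, smul_eq_mul, map_mul]
  have e2 : FinitePlace.mk v ((c • x) 1) = FinitePlace.mk v c * FinitePlace.mk v (x 1) := by
    rw [Pi.smul_apply, smul_eq_mul, map_mul]
  have e3 : FinitePlace.mk v ((c • x) 0 * α l 1 - (c • x) 1 * α l 0) =
      FinitePlace.mk v c * FinitePlace.mk v (x 0 * α l 1 - x 1 * α l 0) := by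
    rw [← map_mul]
    congr 1
    rw [Pi.smul_apply, Pi.smul_apply, smul_eq_mul, smul_eq_mul]
    ring
  rw [e1, e2, e3, ← mul_max_of_nonneg _ _ h0.le, mul_assoc (FinitePlace.mk v c),
    mul_div_mul_left _ _ h0.ne']

/-- The data: a number `q ≥ 3`, distinct points `α_1, …, α_q` and a finite set `T` of primes. -/
structure Dat (K : Type) [Field K] [NumberField K] where
  q : ℕ
  α : Fin q → Fin 2 → K
  T : Finset (HeightOneSpectrum (𝓞 K))
  hq : 3 ≤ q
  hα : ∀ i j, i ≠ j → α i 0 * α j 1 - α i 1 * α j 0 ≠ 0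

theorem countable_dat : Countable (Dat K) := by
  have := Pool.Agent.V11326.WCt.countable_field K
  have := Pool.Agent.V11326.WCt.countable_primes K
  have h : Function.Injective (fun d : Dat K =>
      ((⟨d.q, d.α⟩, d.T) : (Σ q : ℕ, (Fin q → Fin 2 → K)) × Finset (HeightOneSpectrum (𝓞 K)))) := by
    rintro ⟨q, α, T, h1, h2⟩ ⟨q', α', T', h1', h2'⟩ h
    simp only [Prod.mk.injEq, Sigma.mk.injEq] at h
    obtain ⟨⟨rfl, h3⟩, rfl⟩ := h
    obtain rfl := eq_of_heq h3
    rfl
  exact h.countable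

theorem result (K : Type) [Field K] [NumberField K] (ε : ℝ) (hε : 0 < ε) :
    ∃ ν : ℝ, 0 < ν ∧ ν ≤ 1 ∧ ∀ (v : ℕ → ℝ) (τ θ : ℝ), (∀ n, 1 ≤ v n) → 0 ≤ τ → ExpLe v τ → θ < 1 →
      ∃ F : Set ℝ, dimH F ≤ ENNReal.ofReal ((1 - ν + τ) / (1 - θ)) ∧ (τ + θ < ν → volume F = 0) ∧
        ∀ β : ℝ, β ∉ F → ∀ (q : ℕ), 3 ≤ q → ∀ α : Fin q → Fin 2 → K,
          (∀ i j, i ≠ j → α i 0 * α j 1 - α i 1 * α j 0 ≠ 0) → ∀ T : Finset (HeightOneSpectrum (𝓞 K)),
          ∃ C : ℝ, ∀ (n : ℕ) (x : Fin 2 → K), x ≠ 0 → (∀ l, x 0 * α l 1 - x 1 * α l 0 ≠ 0) →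
            |Real.exp (2 * (Module.finrank ℚ K : ℝ) / q * counting (T : Set (HeightOneSpectrum (𝓞 K))) α x) - β * v n| ≤
              (v n) ^ θ →
            (1 - ε) * q * height x ≤ counting (T : Set (HeightOneSpectrum (𝓞 K))) α x + C := by
  obtain ⟨η, ν, hη, hν, ⟨C, hC⟩, -⟩ := AllFiniteSubsetsAtOnce.result K ε hε 0
  have hd : (0 : ℝ) < Module.finrank ℚ K := by exact_mod_cast (Module.finrank_pos (R := ℚ) (M := K))
  obtain ⟨d, hdd⟩ : ∃ d : ℝ, d = Module.finrank ℚ K := ⟨_, rfl⟩
  rw [← hdd] at hd hC ⊢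
  have := countable_dat (K := K)
  -- the exceptional points for the single data
  let S : Dat K → Set (Projectivization K (Fin 2 → K)) := fun D =>
    {P | ∃ (x : Fin 2 → K) (hx : x ≠ 0), P = Projectivization.mk K x hx ∧ (∀ l, x 0 * D.α l 1 - x 1 * D.α l 0 ≠ 0) ∧
      counting (D.T : Set (HeightOneSpectrum (𝓞 K))) D.α x < (1 - ε) * D.q * height x}
  let N : Dat K → Projectivization K (Fin 2 → K) → ℝ := fun D P =>
    3 / (D.q : ℝ) * counting (D.T : Set (HeightOneSpectrum (𝓞 K))) D.α P.rep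
  have hrep : ∀ (D : Dat K) (x : Fin 2 → K) (hx : x ≠ 0),
      counting (D.T : Set (HeightOneSpectrum (𝓞 K))) D.α (Projectivization.mk K x hx).rep =
        counting (D.T : Set (HeightOneSpectrum (𝓞 K))) D.α x ∧ height (Projectivization.mk K x hx).rep = height x := by
    intro D x hx
    obtain ⟨a, ha⟩ := Projectivization.exists_smul_eq_mk_rep K x hx
    rw [← ha]
    exact ⟨counting_smul _ _ (a : K) a.ne_zero x, height_smul (a : K) a.ne_zero x⟩
  refine ⟨min (ν / (2 * d / 3)) 1, lt_min (by positivity) one_pos, min_le_right _ _, fun v τ θ hv hτ hvτ hθ => ?_⟩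
  obtain ⟨F, hF, hF0, h⟩ := Pool.Agent.V11326.WOC.family (ι := Dat K) (e := 2 * d / 3) (ν := ν) (C := C) (by positivity) hν
    (fun X => Exceptions K ε 0 η X) hC S N (by
      intro D
      have hq0 : (0 : ℝ) < D.q := by exact_mod_cast (by have := D.hq; omega : 0 < D.q)
      obtain ⟨B, hB⟩ := (Set.finite_range fun i : Fin D.q => height (D.α i)).bddAbove
      refine ⟨max 1 (Real.exp (max B (∑ v ∈ D.T, Real.log (Ideal.absNorm v.asIdeal : ℝ)) / η)), fun X hX P hP hN => ?_⟩
      obtain ⟨x, hx, rfl, h1, h2⟩ := hP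
      have hX1 : Real.exp (max B (∑ v ∈ D.T, Real.log (Ideal.absNorm v.asIdeal : ℝ)) / η) ≤ X :=
        (le_max_right _ _).trans hX
      have hX0 : 0 < X := lt_of_lt_of_le (Real.exp_pos _) hX1
      have h3 := (Real.le_log_iff_exp_le hX0).2 hX1
      rw [div_le_iff₀ hη, mul_comm] at h3
      refine ⟨x, hx, rfl, D.q, D.α, D.T, ⟨D.hq, D.hα, fun i => ?_⟩, (le_max_right _ _).trans h3, h1, ?_, ?_⟩
      · exact (hB ⟨i, rfl⟩).trans ((le_max_left _ _).trans h3)
      · have h4 : 3 / (D.q : ℝ) * counting (D.T : Set (HeightOneSpectrum (𝓞 K))) D.α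
            (Projectivization.mk K x hx).rep ≤ Real.log X := hN
        rw [(hrep D x hx).1] at h4
        have h5 := mul_le_mul_of_nonneg_left h4 (div_pos hq0 three_pos).le
        calc counting (D.T : Set (HeightOneSpectrum (𝓞 K))) D.α x =
              (D.q : ℝ) / 3 * (3 / (D.q : ℝ) * counting (D.T : Set (HeightOneSpectrum (𝓞 K))) D.α x) := by
              field_simp
          _ ≤ (D.q : ℝ) / 3 * Real.log X := h5
      · linarith)
    hv hτ hvτ hθ
  refine ⟨F, hF, hF0, fun β hβ q hq α hα T => ?_⟩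
  let D : Dat K := ⟨q, α, T, hq, hα⟩
  have hq0 : (0 : ℝ) < q := by exact_mod_cast (by omega : 0 < q)
  obtain ⟨C', hC'⟩ := ((h β hβ D).2.image fun P => (1 - ε) * q * height P.rep -
    counting (T : Set (HeightOneSpectrum (𝓞 K))) α P.rep).bddAbove
  refine ⟨max C' 0, fun n x hx hne hw => ?_⟩
  by_contra hcon
  push Not at hcon
  have hlt : counting (T : Set (HeightOneSpectrum (𝓞 K))) α x < (1 - ε) * q * height x := by
    linarith [le_max_right C' 0]
  have hmem : Projectivization.mk K x hx ∈ {P | P ∈ S D ∧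
      ∃ n : ℕ, |Real.exp (2 * d / 3 * N D P) - β * v n| ≤ (v n) ^ θ} := by
    refine ⟨⟨x, hx, rfl, hne, hlt⟩, n, ?_⟩
    have e1 : 2 * d / 3 * N D (Projectivization.mk K x hx) =
        2 * d / q * counting (T : Set (HeightOneSpectrum (𝓞 K))) α x := by
      show 2 * d / 3 * (3 / (q : ℝ) * counting (T : Set (HeightOneSpectrum (𝓞 K))) α
        (Projectivization.mk K x hx).rep) = _
      rw [(hrep D x hx).1]
      field_simp
      rfl
    rw [e1]
    exact hw
  have h6 := hC' ⟨_, hmem, rfl⟩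
  simp only [(hrep D x hx).2] at h6
  have h7 : counting (T : Set (HeightOneSpectrum (𝓞 K))) α (Projectivization.mk K x hx).rep =
      counting (T : Set (HeightOneSpectrum (𝓞 K))) α x := (hrep D x hx).1
  rw [h7] at h6
  linarith [le_max_left C' 0]

end Pool.Agent.Results.MP_4d5ce1_nt.ConductorWindows
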