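import Mathlib
import Pool.Agent.V1189.RT.Vojta

/-!
# The digits of the coordinates and the inequality of Roth and Ridout on the projective line

`α_1, …, α_q ∈ ℙ¹(ℚ)` are distinct points, `q ≥ 2`, and `S` consists of the infinite place and of finitely
many primes. A point `x` of `ℙ¹(ℚ)` is given by coprime integers `x_0, x_1`; its height is
`h(x) = log max (|x_0|, |x_1|)`, and for `α = [a_0 : a_1]` with coprime integers `a_0, a_1` the local height
at a prime `p` is `λ_p(α, x) = v_p(x_0 a_1 - x_1 a_0) log p`.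

The inequality `(q - 2 - ε) h(x) ≤ ∑_{p ∉ S} ∑_i λ_p(α_i, x) + C` (Roth, Ridout) is the one of the problem
for `k = ℚ`, with `λ` in place of `λ^(1)`. We improve it for the points with simple digits. Let `b ≥ 2` be
a base prime to the primes in `S`, and `u_0, u_1` integers (for instance `u_0 x_0 + u_1 x_1 = x_0`). We
consider `r` pairwise disjoint windows of `l` consecutive digits each of the base `b` expansion of
`|u_0 x_0 + u_1 x_1|`. The joint order `m` of these windows is the least `m` such that the `r` words satisfy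
a common nontrivial relation

  `c_0 s_i + c_1 s_(i+1) + … + c_m s_(i+m) = 0`   (`1 ≤ i ≤ l - m`),   `c_0, …, c_m ∈ ℚ` not all `0`

(`m = 0` if all digits in the windows are `0`). We prove: for every `ε > 0` there is a constant `C` such
that for all points `x` different from the `α_i` and all windows

  `(q - 2 - ε) h(x) + (r l - (r + 2) m) log b ≤ ∑_{p ∉ S} ∑_i λ_p(α_i, x) + C`.

So each family of windows of joint order `m < r l / (r + 2)`, for instance long blocks of zeros, or long
blocks with a common period or a common linear recurrence, improves the inequality.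

The proof uses the subspace theorem (library) with divisibility conditions at the base `b`, and merges the
windows that are linearly dependent.
-/

set_option autoImplicit false

namespace Pool.Agent.Results.MP_4d5ce1_nt.DigitsOfPoints

open Finset
open Pool.Agent.V1189.RT.Joint (digit IsWindows HasRelation jointOrder height)

/-- the local height `λ_p(α, x)` at a prime `p`, for points given by coprime integers -/
noncomputable def localHeight (p : ℕ) (α x : Fin 2 → ℤ) : ℝ :=
  (padicValInt p (x 0 * α 1 - x 1 * α 0) : ℝ) * Real.log p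

/-- the sum of the local heights `λ_p(α, x)` over the primes `p ∉ S` (they are `0` if `p` does not divide
`x_0 α_1 - x_1 α_0`) -/
noncomputable def outside (S : Finset ℕ) (α x : Fin 2 → ℤ) : ℝ :=
  ∑ p ∈ (x 0 * α 1 - x 1 * α 0).natAbs.primeFactors \ S, localHeight p α x

lemma log_natAbs (n : ℤ) (hn : n ≠ 0) :
    Real.log |(n : ℝ)| = ∑ p ∈ n.natAbs.primeFactors, (padicValInt p n : ℝ) * Real.log p := by
  have h1 : |(n : ℝ)| = ((n.natAbs : ℕ) : ℝ) := by rw [Nat.cast_natAbs, Int.cast_abs]
  rw [h1]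
  have h2 : n.natAbs ≠ 0 := Int.natAbs_ne_zero.2 hn
  have h3 := Nat.prod_factorization_pow_eq_self h2
  have h4 : ((n.natAbs : ℕ) : ℝ) = ∏ p ∈ n.natAbs.primeFactors, (p : ℝ) ^ (n.natAbs.factorization p) := by
    conv_lhs => rw [← h3]
    rw [Finsupp.prod, Nat.support_factorization]
    push_cast
    rfl
  rw [h4, Real.log_prod fun p hp => by
    have := (Nat.prime_of_mem_primeFactors hp).pos
    positivity]
  refine Finset.sum_congr rfl fun p hp => ?_
  rw [Real.log_pow]
  congr 2
  have := Nat.prime_of_mem_primeFactors hp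
  exact Nat.factorization_def _ this

lemma outside_eq (S : Finset ℕ) (hS : ∀ p ∈ S, p.Prime) (α x : Fin 2 → ℤ)
    (h : x 0 * α 1 - x 1 * α 0 ≠ 0) :
    Real.log |((x 0 * α 1 - x 1 * α 0 : ℤ) : ℝ)| =
      outside S α x + ∑ p ∈ S, (padicValInt p (x 0 * α 1 - x 1 * α 0) : ℝ) * Real.log p := by
  classical
  obtain ⟨n, hn⟩ : ∃ n : ℤ, n = x 0 * α 1 - x 1 * α 0 := ⟨_, rfl⟩
  unfold outside localHeight
  rw [← hn] at h ⊢
  have h0 : ∑ p ∈ n.natAbs.primeFactors, (padicValInt p n : ℝ) * Real.log p =
      ∑ p ∈ n.natAbs.primeFactors \ S, (padicValInt p n : ℝ) * Real.log p +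
        ∑ p ∈ n.natAbs.primeFactors ∩ S, (padicValInt p n : ℝ) * Real.log p := by
    rw [← Finset.sum_union (Finset.disjoint_sdiff_inter _ _), Finset.sdiff_union_inter]
  rw [log_natAbs n h, h0]
  congr 1
  refine Finset.sum_subset Finset.inter_subset_right fun p hp1 hp2 => ?_
  have h1 : ¬ p ∣ n.natAbs := by
    intro h2
    exact hp2 (mem_inter.2 ⟨Nat.mem_primeFactors.2 ⟨hS p hp1, h2, Int.natAbs_ne_zero.2 h⟩, hp1⟩)
  have h2 : padicValInt p n = 0 := by
    unfold padicValInt
    exact padicValNat.eq_zero_of_not_dvd h1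
  rw [h2, Nat.cast_zero, zero_mul]

/-- **The inequality with digits.** See the text at the beginning of the file. -/
theorem result (q : ℕ) (hq : 2 ≤ q) (α : Fin q → Fin 2 → ℤ)
    (hα : ∀ i, IsCoprime (α i 0) (α i 1))
    (hdist : ∀ i j, i ≠ j → α i 0 * α j 1 ≠ α i 1 * α j 0)
    (S : Finset ℕ) (hS : ∀ p ∈ S, p.Prime) (b : ℕ) (hb : 2 ≤ b) (hbS : ∀ p ∈ S, ¬ p ∣ b)
    (u : Fin 2 → ℤ) (r : ℕ) (hr : 1 ≤ r) (ε : ℝ) (hε : 0 < ε) :
    ∃ C : ℝ, ∀ x : Fin 2 → ℤ, IsCoprime (x 0) (x 1) →
      (∀ i, x 0 * α i 1 - x 1 * α i 0 ≠ 0) → ∀ (W : Fin r → ℕ) (l : ℕ),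
      IsWindows b (u 0 * x 0 + u 1 * x 1).natAbs r W l →
      ((q : ℝ) - 2 - ε) * Real.log (height x) +
        ((r : ℝ) * l - (r + 2) * jointOrder b (u 0 * x 0 + u 1 * x 1).natAbs r W l) *
          Real.log b ≤
      ∑ i, outside S (α i) x + C := by
  classical
  have hbR : (2 : ℝ) ≤ b := by exact_mod_cast hb
  have hL0 : 0 < Real.log b := Real.log_pos (by linarith)
  let Λ : Fin q → Fin 2 → ℤ := fun i => ![α i 1, -α i 0]
  have hΛx : ∀ i (x : Fin 2 → ℤ), ∑ j, Λ i j * x j = x 0 * α i 1 - x 1 * α i 0 := by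
    intro i x
    rw [Fin.sum_univ_two]
    change α i 1 * x 0 + -α i 0 * x 1 = _
    ring
  have hgen : ∀ σ : Fin 2 → Fin q, Function.Injective σ →
      (Pool.Agent.V1189.RT.Vojta.pick Λ σ).det ≠ 0 := by
    intro σ hσ
    rw [Matrix.det_fin_two]
    change α (σ 0) 1 * -α (σ 1) 0 - -α (σ 0) 0 * α (σ 1) 1 ≠ 0
    intro h
    refine hdist (σ 0) (σ 1) (fun h' => ?_) (by linarith)
    have := hσ h'
    simp at this
  obtain ⟨E, C, hC0, hE, hmain⟩ := Pool.Agent.V1189.RT.Vojta.vojtaDigits 2 b r q (by norm_num) hq Λ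
    hgen S hS hb hbS u hr ε hε
  obtain ⟨H1, hH1⟩ : ∃ H1 : ℕ, H1 = 1 + ∑ s ∈ E, height s := ⟨_, rfl⟩
  have hH1R : (1 : ℝ) ≤ H1 := by
    rw [hH1]
    push_cast
    have : (0 : ℝ) ≤ ∑ s ∈ E, (height s : ℝ) := Finset.sum_nonneg fun _ _ => Nat.cast_nonneg _
    linarith
  obtain ⟨Ga, hGa⟩ : ∃ Ga : ℝ, Ga = 1 + |(u 0 : ℝ)| + |(u 1 : ℝ)| := ⟨_, rfl⟩
  have hGa1 : 1 ≤ Ga := by
    have h1 := abs_nonneg (u 0 : ℝ)
    have h2 := abs_nonneg (u 1 : ℝ)
    rw [hGa]; linarith
  have hlGa : 0 ≤ Real.log Ga := Real.log_nonneg hGa1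
  have hlH1 : 0 ≤ Real.log H1 := Real.log_nonneg hH1R
  have hout : ∀ i (x : Fin 2 → ℤ), 0 ≤ outside S (α i) x := by
    intro i x
    refine Finset.sum_nonneg fun p _ => ?_
    exact mul_nonneg (Nat.cast_nonneg _) (Real.log_natCast_nonneg _)
  refine ⟨C + q * Real.log H1 + r * (Real.log b + Real.log Ga + Real.log H1),
    fun x hx hΛ W l hW => ?_⟩
  have hux : u 0 * x 0 + u 1 * x 1 = ∑ j, u j * x j := by rw [Fin.sum_univ_two]
  rw [hux] at hW ⊢
  have hr0 : (0 : ℝ) ≤ r := Nat.cast_nonneg _
  have hq0 : (0 : ℝ) ≤ q := Nat.cast_nonneg _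
  by_cases hxE : ∀ s ∈ E, ∑ j, s j * x j ≠ 0
  · have h1 := hmain x hxE (fun p hp => by
      by_contra h
      push Not at h
      have h2 := hx.isUnit_of_dvd' (h 0) (h 1)
      have h3 := (hS p hp).two_le
      rw [Int.isUnit_iff_natAbs_eq, Int.natAbs_natCast] at h2
      omega) (fun i => by rw [hΛx]; exact hΛ i) W l hW
    simp only [hΛx] at h1
    rw [Finset.sum_comm] at h1
    have h2 : ∑ i, Real.log |((x 0 * α i 1 - x 1 * α i 0 : ℤ) : ℝ)| = ∑ i, outside S (α i) x +
        ∑ i, ∑ p ∈ S, (padicValInt p (x 0 * α i 1 - x 1 * α i 0) : ℝ) * Real.log p := by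
      rw [← Finset.sum_add_distrib]
      exact Finset.sum_congr rfl fun i _ => outside_eq S hS (α i) x (hΛ i)
    rw [h2] at h1
    push_cast at h1 ⊢
    have h3 : 0 ≤ (q : ℝ) * Real.log H1 := by positivity
    have h4 : 0 ≤ (r : ℝ) * (Real.log b + Real.log Ga + Real.log H1) := by positivity
    linarith
  · push Not at hxE
    obtain ⟨s, hs, hsx⟩ := hxE
    rw [Fin.sum_univ_two] at hsx
    have hs0 := hE s hs
    have hhs : ∀ j, (s j).natAbs ≤ height s := fun j =>
      Finset.le_sup (f := fun j => (s j).natAbs) (mem_univ j)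
    have hx0 : (x 0).natAbs ≤ height s := by
      by_cases h1 : s 1 = 0
      · rw [h1, zero_mul, add_zero] at hsx
        rcases mul_eq_zero.1 hsx with h2 | h2
        · exact absurd (by funext j; fin_cases j <;> simp [h1, h2]) hs0
        · rw [h2]; simp
      · have h2 : x 0 ∣ s 1 := by
          refine IsCoprime.dvd_of_dvd_mul_right hx ⟨-s 0, by linarith⟩
        exact (Nat.le_of_dvd (Int.natAbs_pos.2 h1) (Int.natAbs_dvd_natAbs.2 h2)).trans (hhs 1)
    have hx1 : (x 1).natAbs ≤ height s := by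
      by_cases h1 : s 0 = 0
      · rw [h1, zero_mul, zero_add] at hsx
        rcases mul_eq_zero.1 hsx with h2 | h2
        · exact absurd (by funext j; fin_cases j <;> simp [h1, h2]) hs0
        · rw [h2]; simp
      · have h2 : x 1 ∣ s 0 := by
          refine IsCoprime.dvd_of_dvd_mul_right hx.symm ⟨-s 1, by linarith⟩
        exact (Nat.le_of_dvd (Int.natAbs_pos.2 h1) (Int.natAbs_dvd_natAbs.2 h2)).trans (hhs 0)
    have hxs : height x ≤ height s := by
      refine Finset.sup_le fun j _ => ?_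
      fin_cases j
      · exact hx0
      · exact hx1
    have hxH : height x ≤ H1 := by
      have h1 : height s ≤ ∑ s ∈ E, height s :=
        Finset.single_le_sum (f := fun s => height s) (fun _ _ => Nat.zero_le _) hs
      omega
    have hxHR : (height x : ℝ) ≤ H1 := by exact_mod_cast hxH
    have hlx : Real.log (height x) ≤ Real.log H1 := by
      rcases Nat.eq_zero_or_pos (height x) with h | h
      · rw [h, Nat.cast_zero, Real.log_zero]; exact hlH1
      · exact Real.log_le_log (by exact_mod_cast h) hxHR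
    have hlx0 : 0 ≤ Real.log (height x) := Real.log_natCast_nonneg _
    have h1 : ((q : ℝ) - 2 - ε) * Real.log (height x) ≤ q * Real.log H1 := by
      have h2 : ((q : ℝ) - 2 - ε) * Real.log (height x) ≤ q * Real.log (height x) :=
        mul_le_mul_of_nonneg_right (by linarith) hlx0
      exact h2.trans (mul_le_mul_of_nonneg_left hlx hq0)
    have hxj : ∀ j, |(x j : ℝ)| ≤ H1 := by
      intro j
      have h2 : (x j).natAbs ≤ height x :=
        Finset.le_sup (f := fun j => (x j).natAbs) (mem_univ j)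
      have h3 : (((x j).natAbs : ℕ) : ℝ) ≤ H1 := by exact_mod_cast h2.trans hxH
      rwa [Nat.cast_natAbs, Int.cast_abs] at h3
    have hl : (l : ℝ) * Real.log b ≤ Real.log b + Real.log Ga + Real.log H1 := by
      have h2 := hW.inside ⟨0, hr⟩
      have h3 : l ≤ Nat.log b (∑ j, u j * x j).natAbs + 1 := by omega
      have h4 : (((∑ j, u j * x j).natAbs : ℕ) : ℝ) ≤ Ga * H1 := by
        rw [Nat.cast_natAbs, Int.cast_abs, Fin.sum_univ_two]
        push_cast
        refine (abs_add_le _ _).trans ?_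
        rw [abs_mul, abs_mul]
        have h5 := mul_le_mul_of_nonneg_left (hxj 0) (abs_nonneg (u 0 : ℝ))
        have h6 := mul_le_mul_of_nonneg_left (hxj 1) (abs_nonneg (u 1 : ℝ))
        rw [hGa]
        nlinarith
      rcases Nat.eq_zero_or_pos (∑ j, u j * x j).natAbs with h5 | h5
      · rw [h5, Nat.log_zero_right] at h3
        have h6 : (l : ℝ) ≤ 1 := by exact_mod_cast h3
        have h7 : (l : ℝ) * Real.log b ≤ 1 * Real.log b := mul_le_mul_of_nonneg_right h6 hL0.le
        linarith
      · have h6 : (b : ℝ) ^ l ≤ b * (Ga * H1) := by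
          have h7 : b ^ l ≤ b * (∑ j, u j * x j).natAbs := by
            calc b ^ l ≤ b ^ (Nat.log b (∑ j, u j * x j).natAbs + 1) :=
                  Nat.pow_le_pow_right (by omega) h3
              _ = b * b ^ Nat.log b (∑ j, u j * x j).natAbs := by rw [pow_succ']
              _ ≤ b * (∑ j, u j * x j).natAbs :=
                  Nat.mul_le_mul_left b (Nat.pow_log_le_self b (by omega))
          have h8 : ((b ^ l : ℕ) : ℝ) ≤ ((b * (∑ j, u j * x j).natAbs : ℕ) : ℝ) := by
            exact_mod_cast h7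
          rw [Nat.cast_pow, Nat.cast_mul] at h8
          exact h8.trans (mul_le_mul_of_nonneg_left h4 (by linarith))
        have h7 := Real.log_le_log (by positivity) h6
        rw [Real.log_pow, Real.log_mul (by linarith) (by positivity),
          Real.log_mul (by linarith) (by linarith)] at h7
        linarith
    have h2 : ((r : ℝ) * l - (r + 2) * jointOrder b (∑ j, u j * x j).natAbs r W l) * Real.log b ≤
        r * (Real.log b + Real.log Ga + Real.log H1) := by
      have h3 : (0 : ℝ) ≤ (r + 2) * jointOrder b (∑ j, u j * x j).natAbs r W l * Real.log b := by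
        positivity
      have h4 := mul_le_mul_of_nonneg_left hl hr0
      nlinarith
    have h3 : 0 ≤ ∑ i, outside S (α i) x := Finset.sum_nonneg fun i _ => hout i x
    linarith

end Pool.Agent.Results.MP_4d5ce1_nt.DigitsOfPoints
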