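import Mathlib
import Pool.Agent.H107.VojtaLine
import Pool.Agent.V11001.KM.Family

/-!
# Vojta's truncated inequality for the points with heights near the powers of almost every real number

Let `K` be a number field of degree `d` and `ν n` real numbers with `ν n / log n → ∞`, for example `ν n = n`. For almost
every real `x > 1` the inequality asked for holds (with `ε = 0`) for all finite sets of points and all `y` in `K` with
`|H(y) - x ^ (ν n)| ≤ x ^ (θ ν n)` for some `n`, if `θ < 1 - d expoThree (6 / q)`.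
-/

set_option autoImplicit false

namespace Pool.Agent.Results.MP_4d5ce1_nt.HeightsNearPowers

open NumberField IsDedekindDomain Filter
open Pool.Agent.Results.MP_4d5ce1_nt.ExceptionalSetExponents (height counting expoThree)

/-- the points `[(α l).1 : (α l).2]` are well defined and distinct -/
def Distinct {K : Type} [Field K] {q : ℕ} (α : Fin q → K × K) : Prop :=
  (∀ i, α i ≠ 0) ∧ ∀ i j, i ≠ j → (α i).1 * (α j).2 - (α i).2 * (α j).1 ≠ 0

/-- the height `H(y) = exp h(y)` is in the window of length `2 x ^ (θ ν n)` around `β x ^ (ν n)` for some `n` -/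
def InWindow {K : Type} [Field K] [NumberField K] (ν : ℕ → ℝ) (θ β x : ℝ) (y : K) : Prop :=
  ∃ n : ℕ, |Real.exp (height y) - β * x ^ ν n| ≤ x ^ (θ * ν n)

/-- **Theorem.** Let `K` be a number field of degree `d`, `ν n / log n → ∞` and let `B` be a countable set of real
numbers.
(1) Let `q ≥ 3`, `0 ≤ κ ≤ q` and `θ < 1`. There is a set `E` of real numbers of Hausdorff dimension at most
`d expoThree (3 κ / q) / (1 - θ)` such that for each `x > 1` outside `E`, each positive `β` in `B`, each finite set `T` of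
primes, all distinct points `α_1, …, α_q` of the projective line and each real `c` all but finitely many `y` in `K`,
different from the `α_l`, with a height in the window of length `2 x ^ (θ ν n)` around `β x ^ (ν n)` for some `n` satisfy
`∑_{v ∉ T} ∑_l λ^(1)_v(α_l, y) ≥ (q - κ) h(y) + c`.
(2) For almost every real `x > 1`: for all `q ≥ 3`, all distinct points `α_1, …, α_q`, all finite sets `T` of primes, all
`θ` with `d expoThree (6 / q) + θ < 1` and all positive `β` in `B` there is `C` such that ALL `y` in `K`, different from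
the `α_l`, with a height in the window of length `2 x ^ (θ ν n)` around `β x ^ (ν n)` for some `n` satisfy
`(q - 2) h(y) ≤ ∑_{v ∉ T} ∑_l λ^(1)_v(α_l, y) + C`. -/
theorem result : ∀ (K : Type) [Field K] [NumberField K] (ν : ℕ → ℝ),
    Tendsto (fun n : ℕ => ν n / Real.log n) atTop atTop → ∀ B : Set ℝ, B.Countable →
    (∀ q : ℕ, 3 ≤ q → ∀ κ : ℝ, 0 ≤ κ → κ ≤ q → ∀ θ : ℝ, θ < 1 →
      ∃ E : Set ℝ, dimH E ≤ ENNReal.ofReal ((Module.finrank ℚ K : ℝ) * expoThree (3 * κ / q) / (1 - θ)) ∧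
        ∀ x : ℝ, 1 < x → x ∉ E → ∀ β ∈ B, 0 < β → ∀ T : Set (HeightOneSpectrum (𝓞 K)), T.Finite →
          ∀ α : Fin q → K × K, Distinct α → ∀ c : ℝ,
            {y : K | (∀ l, y * (α l).2 - 1 * (α l).1 ≠ 0) ∧ InWindow ν θ β x y ∧
              counting T α y < ((q : ℝ) - κ) * height y + c}.Finite) ∧
    (∀ᵐ x : ℝ, 1 < x → ∀ q : ℕ, 3 ≤ q → ∀ α : Fin q → K × K, Distinct α →
      ∀ T : Set (HeightOneSpectrum (𝓞 K)), T.Finite →
      ∀ θ : ℝ, (Module.finrank ℚ K : ℝ) * expoThree (3 * 2 / q) + θ < 1 → ∀ β ∈ B, 0 < β →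
      ∃ C : ℝ, ∀ y : K, (∀ l, y * (α l).2 - 1 * (α l).1 ≠ 0) → InWindow ν θ β x y →
        ((q : ℝ) - 2) * height y ≤ counting T α y + C) := by
  intro K _ _ ν hν B hB
  refine ⟨fun q hq κ hκ0 hκ θ hθ => ?_, ?_⟩
  · obtain ⟨E, hE1, hE2⟩ := Pool.Agent.V11001.KM.family (fun y : K => Real.exp (height y)) hν
      (Pool.Agent.H107.VL.expo_nonneg (K := K) hq hκ) hθ B hB (J := Pool.Agent.H107.VL.J K q)
      (fun j => Pool.Agent.H107.VL.Exc (j.1 : Set (HeightOneSpectrum (𝓞 K))) j.2.1.1 κ j.2.2)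
      (fun j ε hε => Pool.Agent.H107.VL.count hq hκ0 hκ _ j.1.finite_toSet j.2.1 _ ε hε)
    refine ⟨E, hE1, fun x hx hxE β hβ hβ0 T hT α hα c => ?_⟩
    obtain ⟨k, hk⟩ := exists_nat_ge c
    refine (hE2 x hx hxE β hβ hβ0 (hT.toFinset, ⟨α, hα.1, hα.2⟩, k)).subset ?_
    rintro y ⟨g1, g3, g4⟩
    refine ⟨⟨g1, ?_⟩, g3⟩
    rw [Set.Finite.coe_toFinset]
    linarith
  · have hall : ∀ q : ℕ, ∀ᵐ x : ℝ, 3 ≤ q → 1 < x → ∀ θ : ℝ,
        θ < 1 - (Module.finrank ℚ K : ℝ) * expoThree (3 * 2 / q) → ∀ β ∈ B, 0 < β →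
        ∀ j : Pool.Agent.H107.VL.J K q,
        {y : K | y ∈ Pool.Agent.H107.VL.Exc (j.1 : Set (HeightOneSpectrum (𝓞 K))) j.2.1.1 2 j.2.2 ∧
          ∃ n : ℕ, |Real.exp (height y) - β * x ^ ν n| ≤ x ^ (θ * ν n)}.Finite := by
      intro q
      by_cases hq : 3 ≤ q
      · have hq2 : (2 : ℝ) ≤ q := by
          have : 2 ≤ q := by omega
          exact_mod_cast this
        filter_upwards [Pool.Agent.V11001.KM.ae_family (fun y : K => Real.exp (height y)) hν
          (Pool.Agent.H107.VL.expo_nonneg (K := K) hq hq2) B hB (J := Pool.Agent.H107.VL.J K q)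
          (fun j => Pool.Agent.H107.VL.Exc (j.1 : Set (HeightOneSpectrum (𝓞 K))) j.2.1.1 2 j.2.2)
          (fun j ε hε => Pool.Agent.H107.VL.count hq (by norm_num) hq2 _ j.1.finite_toSet j.2.1 _ ε hε)]
          with z hz _
        exact hz
      · exact Filter.Eventually.of_forall fun z h => absurd h hq
    rw [← MeasureTheory.ae_all_iff] at hall
    filter_upwards [hall] with x hx hx1 q hq α hα T hT θ hθ β hβ hβ0
    have hfin := hx q hq hx1 θ (by linarith) β hβ hβ0 (hT.toFinset, ⟨α, hα.1, hα.2⟩, 0)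
    obtain ⟨C, hC⟩ := Pool.Agent.V11001.KM.const_of_finite
      {y : K | (∀ l, y * (α l).2 - 1 * (α l).1 ≠ 0) ∧ InWindow ν θ β x y}
      (fun y => ((q : ℝ) - 2) * height y - counting T α y) (hfin.subset (by
        rintro y ⟨⟨h1, h2⟩, h4⟩
        refine ⟨⟨h1, ?_⟩, h2⟩
        have h5 : 0 < ((q : ℝ) - 2) * height y - counting T α y := h4
        rw [Set.Finite.coe_toFinset]
        push_cast
        linarith))
    refine ⟨C, fun y h1 h2 => ?_⟩
    have h6 : ((q : ℝ) - 2) * height y - counting T α y ≤ C := hC y ⟨h1, h2⟩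
    linarith

end Pool.Agent.Results.MP_4d5ce1_nt.HeightsNearPowers
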