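import Mathlib
import Pool.Agent.H107.VojtaLine

/-!
# Vojta's truncated inequality on the projective line near almost every point

Let `K` be a number field of degree `d`. For every embedding of `K` in `ℝ` and almost every real `z` the inequality asked
for holds (with `ε = 0`) for all finite sets of points and all `y` in `K` with `|y - z| ≤ H(y) ^ (-2 d)`.
-/

set_option autoImplicit false

namespace Pool.Agent.Results.MP_4d5ce1_nt.NearAlmostEveryPoint

open NumberField IsDedekindDomain

/-- the absolute logarithmic height of the point `[x : 1]` -/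
noncomputable def height {K : Type} [Field K] [NumberField K] (x : K) : ℝ :=
  (∑ w : InfinitePlace K, (w.mult : ℝ) * Real.log (max (w x) (w 1)) +
    ∑ᶠ v : HeightOneSpectrum (RingOfIntegers K),
      Real.log (max (FinitePlace.mk v x) (FinitePlace.mk v 1))) /
    (Module.finrank ℚ K : ℝ)

/-- the truncated counting function of the point `[x : 1]` with respect to the points
`[(α l).1 : (α l).2]`: the sum over the primes outside `T` and over `l` of the truncated local
heights -/
noncomputable def counting {K : Type} [Field K] [NumberField K]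
    (T : Set (HeightOneSpectrum (RingOfIntegers K))) {q : ℕ} (α : Fin q → K × K) (x : K) : ℝ :=
  ∑ᶠ (v : HeightOneSpectrum (RingOfIntegers K)) (_ : v ∉ T),
    ∑ l : Fin q,
      min
        (Real.log
            (max (FinitePlace.mk v x) (FinitePlace.mk v 1) *
              max (FinitePlace.mk v (α l).1) (FinitePlace.mk v (α l).2) /
              FinitePlace.mk v (x * (α l).2 - 1 * (α l).1)) /
          (Module.finrank ℚ K : ℝ))
        (Real.log (Ideal.absNorm v.asIdeal : ℝ) / (Module.finrank ℚ K : ℝ))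

/-- the exponent for three points: a continuous function on `[0, 3]`, linear on each of the
intervals between `0, 1, 4/3, 17/12, 3/2, 17/10, 7/4, 9/5, 13/7, 19/10, 8512/4185, 94/45, 47/22,
24/11, 3`, with the values `2, 1, 1, 11/12, 7/8, 3/4, 3/4, 7/10, 47/70, 47/70, 26/45, 26/45, 6/11,
6/11, 0` at these points -/
noncomputable def expoThree (t : ℝ) : ℝ :=
  if t ≤ 1 then 2 - t
  else if t ≤ 4 / 3 then 1
  else if t ≤ 17 / 12 then 7 / 3 - t
  else if t ≤ 3 / 2 then 13 / 8 - t / 2
  else if t ≤ 17 / 10 then 29 / 16 - 5 * t / 8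
  else if t ≤ 7 / 4 then 3 / 4
  else if t ≤ 9 / 5 then 5 / 2 - t
  else if t ≤ 13 / 7 then 8 / 5 - t / 2
  else if t ≤ 19 / 10 then 47 / 70
  else if t ≤ 8512 / 4185 then 2 - 93 * t / 133
  else if t ≤ 94 / 45 then 26 / 45
  else if t ≤ 47 / 22 then 2 - 32 * t / 47
  else if t ≤ 24 / 11 then 6 / 11
  else 2 - 2 * t / 3

/-- the points `[(α l).1 : (α l).2]` are well defined and distinct -/
def Distinct {K : Type} [Field K] {q : ℕ} (α : Fin q → K × K) : Prop :=
  (∀ i, α i ≠ 0) ∧ ∀ i j, i ≠ j → (α i).1 * (α j).2 - (α i).2 * (α j).1 ≠ 0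

lemma expo_lt_two {t : ℝ} (ht : 0 < t) : expoThree t < 2 := by
  unfold expoThree
  by_cases h1 : t ≤ 1
  · rw [if_pos h1]; linarith
  rw [if_neg h1]
  by_cases h2 : t ≤ 4 / 3
  · rw [if_pos h2]; linarith
  rw [if_neg h2]
  by_cases h3 : t ≤ 17 / 12
  · rw [if_pos h3]; linarith
  rw [if_neg h3]
  by_cases h4 : t ≤ 3 / 2
  · rw [if_pos h4]; linarith
  rw [if_neg h4]
  by_cases h5 : t ≤ 17 / 10
  · rw [if_pos h5]; linarith
  rw [if_neg h5]
  by_cases h6 : t ≤ 7 / 4
  · rw [if_pos h6]; linarith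
  rw [if_neg h6]
  by_cases h7 : t ≤ 9 / 5
  · rw [if_pos h7]; linarith
  rw [if_neg h7]
  by_cases h8 : t ≤ 13 / 7
  · rw [if_pos h8]; linarith
  rw [if_neg h8]
  by_cases h9 : t ≤ 19 / 10
  · rw [if_pos h9]; linarith
  rw [if_neg h9]
  by_cases h10 : t ≤ 8512 / 4185
  · rw [if_pos h10]; linarith
  rw [if_neg h10]
  by_cases h11 : t ≤ 94 / 45
  · rw [if_pos h11]; linarith
  rw [if_neg h11]
  by_cases h12 : t ≤ 47 / 22
  · rw [if_pos h12]; linarith
  rw [if_neg h12]
  by_cases h13 : t ≤ 24 / 11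
  · rw [if_pos h13]; linarith
  rw [if_neg h13]
  linarith

/-- **Theorem.** Let `K` be a number field of degree `d`.
(1) Let `q ≥ 3`, `0 ≤ κ ≤ q` and `σ > 0`. For every map `φ` of `K` to a metric space `M` (for example to a completion or
to a product of completions) there is a set `E` of points of `M` of Hausdorff dimension at most
`d expoThree (3 κ / q) / σ` such that for each `z` outside `E`, each finite set `T` of primes, all distinct points
`α_1, …, α_q` of the projective line and each real `c` all but finitely many `y` in `K`, different from the `α_l`, with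
`dist (φ y) z ≤ exp (- σ h(y))` satisfy `∑_{v ∉ T} ∑_l λ^(1)_v(α_l, y) ≥ (q - κ) h(y) + c`.
(2) For every embedding `ι` of `K` in `ℝ` and almost every real `z`: for all `q ≥ 3`, all distinct points `α_1, …, α_q`, all
finite sets `T` of primes and all `σ ≥ 2 d` there is `C` such that ALL `y` in `K`, different from the `α_l`, with
`|ι y - z| ≤ exp (- σ h(y))` satisfy `(q - 2) h(y) ≤ ∑_{v ∉ T} ∑_l λ^(1)_v(α_l, y) + C`. -/
theorem result : ∀ (K : Type) [Field K] [NumberField K],
    (∀ (M : Type) [MetricSpace M] (φ : K → M) (q : ℕ), 3 ≤ q → ∀ κ : ℝ, 0 ≤ κ → κ ≤ q → ∀ σ : ℝ, 0 < σ →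
      ∃ E : Set M, dimH E ≤ ENNReal.ofReal ((Module.finrank ℚ K : ℝ) * expoThree (3 * κ / q) / σ) ∧
        ∀ z ∉ E, ∀ T : Set (HeightOneSpectrum (RingOfIntegers K)), T.Finite →
          ∀ α : Fin q → K × K, Distinct α → ∀ c : ℝ,
            {y : K | (∀ l, y * (α l).2 - 1 * (α l).1 ≠ 0) ∧ dist (φ y) z ≤ Real.exp (-(σ * height y)) ∧
              counting T α y < ((q : ℝ) - κ) * height y + c}.Finite) ∧
    (∀ ι : K →+* ℝ, ∀ᵐ z : ℝ, ∀ q : ℕ, 3 ≤ q → ∀ α : Fin q → K × K, Distinct α →
      ∀ T : Set (HeightOneSpectrum (RingOfIntegers K)), T.Finite →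
      ∀ σ : ℝ, 2 * (Module.finrank ℚ K : ℝ) ≤ σ → ∃ C : ℝ, ∀ y : K, (∀ l, y * (α l).2 - 1 * (α l).1 ≠ 0) →
        |ι y - z| ≤ Real.exp (-(σ * height y)) → ((q : ℝ) - 2) * height y ≤ counting T α y + C) := by
  intro K _ _
  refine ⟨fun M _ φ q hq κ hκ0 hκ σ hσ => ?_, fun ι => ?_⟩
  · obtain ⟨E, h1, h2⟩ := Pool.Agent.H107.VL.approx φ hq hκ0 hκ hσ
    exact ⟨E, h1, fun z hz T hT α hα c => h2 z hz T hT α hα.1 hα.2 c⟩
  · have hall : ∀ q : ℕ, ∀ᵐ z : ℝ, 3 ≤ q → ∀ σ : ℝ,
        (Module.finrank ℚ K : ℝ) * expoThree (3 * 2 / q) < σ →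
        ∀ T : Set (HeightOneSpectrum (𝓞 K)), T.Finite → ∀ α : Fin q → K × K,
        (∀ i, α i ≠ 0) → (∀ i j, i ≠ j → (α i).1 * (α j).2 - (α i).2 * (α j).1 ≠ 0) → ∀ c : ℝ,
        {y : K | (∀ l, y * (α l).2 - 1 * (α l).1 ≠ 0) ∧
          |ι y - z| ≤ Real.exp (-(σ * height y)) ∧
          counting T α y < ((q : ℝ) - 2) * height y + c}.Finite := by
      intro q
      by_cases hq : 3 ≤ q
      · have hq2 : (2 : ℝ) ≤ q := by
          have : 2 ≤ q := by omega
          exact_mod_cast this
        have h := Pool.Agent.H107.VL.approx_ae (K := K) (fun y => ι y) hq (κ := 2) (by norm_num) hq2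
        filter_upwards [h] with z hz _
        exact hz
      · exact Filter.Eventually.of_forall fun z h => absurd h hq
    rw [← MeasureTheory.ae_all_iff] at hall
    filter_upwards [hall] with z hz q hq α hα T hT σ hσ
    have hd : (0 : ℝ) < (Module.finrank ℚ K : ℝ) := by exact_mod_cast Module.finrank_pos
    have hσ2 : (Module.finrank ℚ K : ℝ) * expoThree (3 * 2 / q) < σ := by
      have hqR : (0 : ℝ) < q := by
        have : 0 < q := by omega
        exact_mod_cast this
      have h3 : expoThree (3 * 2 / q) < 2 := expo_lt_two (by positivity)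
      have h4 : (Module.finrank ℚ K : ℝ) * expoThree (3 * 2 / q) < (Module.finrank ℚ K : ℝ) * 2 :=
        mul_lt_mul_of_pos_left h3 hd
      linarith
    have hfin := hz q hq σ hσ2 T hT α hα.1 hα.2 0
    obtain ⟨C, hC⟩ := Pool.Agent.H107.ME.const_of_finite
      {y : K | (∀ l, y * (α l).2 - 1 * (α l).1 ≠ 0) ∧ |ι y - z| ≤ Real.exp (-(σ * height y))}
      (fun y => ((q : ℝ) - 2) * height y - counting T α y) (hfin.subset (by
        rintro y ⟨⟨h1, h2⟩, h4⟩
        refine ⟨h1, h2, ?_⟩
        have h5 : 0 < ((q : ℝ) - 2) * height y - counting T α y := h4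
        show counting T α y < ((q : ℝ) - 2) * height y + 0
        linarith))
    refine ⟨C, fun y h1 h2 => ?_⟩
    have h6 : ((q : ℝ) - 2) * height y - counting T α y ≤ C := hC y ⟨h1, h2⟩
    linarith

end Pool.Agent.Results.MP_4d5ce1_nt.NearAlmostEveryPoint
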